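import Mathlib
import Pool.Agent.H.MP_34b196_pr.D

namespace Pool.Agent.Results.MP_c15531_pr.Drift

open MeasureTheory Filter Topology Set Pool.Agent.H.MP_34b196_pr Pool.Agent.H.MP_34b196_pr.B

/-- `γ` is an automorphism: `μ_{γ x}(f ∘ γ⁻¹) = μ_x(f)` -/
def Aut {X : Type} [MeasurableSpace (X →₀ ℕ)] (μ : X → Measure (X →₀ ℕ)) (γ : X ≃ X) : Prop :=
  ∀ x f, μ (γ x) {Finsupp.equivMapDomain γ f} = μ x {f}

local instance : MeasurableSpace (ℤ →₀ ℕ) := ⊤

noncomputable def mu (x : ℤ) : Measure (ℤ →₀ ℕ) :=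
  two (1 / 8) (Finsupp.single (x + 1) 1) (Finsupp.single (x - 1) 1)

instance (x : ℤ) : IsProbabilityMeasure (mu x) := two_prob (by norm_num) (by norm_num) _ _

lemma G_mu (s : ℤ → ℝ) (x : ℤ) : G mu s x = s (x + 1) * (1 - 1 / 8 + 1 / 8 * s (x - 1)) := by
  simp only [G, mu, two_int (p := 1 / 8) (by norm_num) (by norm_num), mono_single]

lemma G_low {u : ℤ → ℝ} (hu : u ∈ Icc (0 : ℤ → ℝ) 1) {c : ℝ} (h : ∀ x, 1 - u x ≤ c * 2 ^ (-x)) (x : ℤ) :
    1 - G mu u x ≤ 3 / 4 * c * 2 ^ (-x) := by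
  have h1 := h (x + 1)
  have h2 := h (x - 1)
  rw [neg_add, zpow_add₀ two_ne_zero] at h1
  rw [neg_sub, sub_eq_add_neg 1 x, zpow_add₀ two_ne_zero] at h2
  have a1 : u (x + 1) ≤ 1 := hu.2 _
  have a2 : u (x - 1) ≤ 1 := hu.2 _
  rw [G_mu]
  norm_num at h1 h2 ⊢
  nlinarith [mul_nonneg (sub_nonneg.2 a1) (sub_nonneg.2 a2)]

lemma q_one {A : Set ℤ} {b : ℤ} (h : ∀ x ∈ A, x ≤ b) : qq mu A = 1 := by
  have h0 : ∀ k x, 1 - (K mu A)^[k] 1 x ≤ 2 ^ b * 2 ^ (-x) := fun k => by
    induction k with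
    | zero => intro x; simp; positivity
    | succ k ih =>
      intro x
      rw [Function.iterate_succ_apply']
      simp only [K]; split_ifs with hx
      · rw [← zpow_add₀ two_ne_zero, sub_zero]
        exact one_le_zpow₀ one_le_two (by linarith [h x hx])
      · refine (G_low (Ki_mem A one_mem' k) ih x).trans ?_
        have : (0 : ℝ) < 2 ^ b * 2 ^ (-x) := by positivity
        linarith
  have h1 : ∀ m x, 1 - rho mu A m x ≤ (3 / 4) ^ m * 2 ^ b * 2 ^ (-x) := fun m => by
    induction m with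
    | zero =>
      intro x
      exact le_of_tendsto' ((tendsto_pi_nhds.1 (rho_lim A 0) x).const_sub 1) fun k => by simpa using h0 k x
    | succ m ih =>
      intro x
      rw [rho_succ]
      exact (G_low (rho_mem A m) ih x).trans (le_of_eq (by ring))
  refine le_antisymm (qq_mem A).2 fun x => ?_
  have := le_of_tendsto_of_tendsto' ((tendsto_pi_nhds.1 (rho_up (μ := mu) A) x).const_sub 1)
    (((tendsto_pow_atTop_nhds_zero_of_lt_one (r := (3 / 4 : ℝ)) (by norm_num) (by norm_num)).mul_const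
      (2 ^ b)).mul_const (2 ^ (-x))) fun m => h1 m x
  simp only [zero_mul, Pi.one_apply] at this ⊢
  linarith

lemma q_zero {A : Set ℤ} (h : ∀ b, ∃ x ∈ A, b < x) : qq mu A = 0 := by
  funext x
  have := spine (μ := mu) (A := A) (fun n => x + n) (fun u hu n => ?_) fun n => ?_
  · simpa using this
  · rw [G_mu]
    push_cast
    rw [add_assoc]
    exact mul_le_of_le_one_right (hu.1 _) (by linarith [show u (x + n - 1) ≤ 1 from hu.2 _])
  · obtain ⟨y, hy, hb⟩ := h (x + |(n : ℤ)|)
    refine ⟨(y - x).toNat, by simp at hb; omega, ?_⟩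
    rwa [Int.toNat_of_nonneg (by simp at hb; omega), add_sub_cancel]

lemma ext_fin : (Ext mu).Finite := by
  refine (toFinite {0, 1}).subset ?_
  rintro _ ⟨A, rfl⟩
  by_cases h : ∀ b, ∃ x ∈ A, b < x
  · exact Or.inl (q_zero h)
  · push Not at h
    obtain ⟨b, hb⟩ := h
    exact Or.inr (q_one hb)

theorem result : ∃ (X : Type) (_ : Countable X) (_ : Infinite X) (_ : MeasurableSpace (X →₀ ℕ))
    (_ : DiscreteMeasurableSpace (X →₀ ℕ)) (μ : X → Measure (X →₀ ℕ))
    (_ : ∀ x, IsProbabilityMeasure (μ x)),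
    Irred μ ∧ (∃ F : Finset X, ∀ x, ∃ γ : X ≃ X, Aut μ γ ∧ γ x ∈ F) ∧ (∀ x, qq μ {x} = 1) ∧
      (∃ x, μ x {f | f.sum (fun _ k => k) = 1} < 1) ∧
      (Ext μ).Finite ∧ ¬ (Fix μ \ Ext μ).Countable := by
  refine ⟨ℤ, inferInstance, inferInstance, ⊤, inferInstance, mu, inferInstance, fun x y => ?_,
    ⟨{0}, fun x => ⟨Equiv.subRight x, fun y f => ?_, by simp⟩⟩,
    fun x => q_one (b := x) fun y hy => le_of_eq hy, ⟨0, ?_⟩, ext_fin, fun hc => ?_⟩
  · induction y using Int.inductionOn' (b := x) with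
    | zero => exact .refl
    | succ k _ ih => exact ih.tail (two_ne (by norm_num) (by simp))
    | pred k _ ih => exact ih.tail (two_ne (by norm_num) (by simp))
  · have e : ∀ g, (Measure.dirac (Finsupp.equivMapDomain (Equiv.subRight x) g) : Measure (ℤ →₀ ℕ))
        {Finsupp.equivMapDomain (Equiv.subRight x) f} = Measure.dirac g {f} := fun g => by
      simp only [Measure.dirac_apply, indicator, mem_singleton_iff, Pi.one_apply]
      exact if_congr (Finsupp.equivCongrLeft (Equiv.subRight x)).injective.eq_iff rfl rfl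
    simp only [mu, two, Measure.add_apply, Measure.smul_apply, ← e]
    simp only [Finsupp.equivMapDomain_eq_mapDomain, Finsupp.mapDomain_add, Finsupp.mapDomain_single,
      Equiv.subRight_apply, sub_add_eq_add_sub, sub_right_comm y x]
  · refine lt_of_le_of_ne prob_le_one fun h => ?_
    rw [← prob_compl_eq_zero_iff MeasurableSet.of_discrete] at h
    refine two_ne (by norm_num) ?_ h
    simp [Finsupp.sum_add_index']
  · have hF : (Fix mu).Countable := (hc.union ext_fin.countable).mono (subset_diff_union _ _)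
    have := cont (μ := mu) (s := 0) ⟨⟨le_rfl, zero_le_one⟩, funext fun x => by simp [G_mu]⟩
      (A := fun n => Iic (n : ℤ)) (fun y _ => tendsto_natCast_atTop_atTop.eventually (eventually_ge_atTop y))
      (fun n => (qq_mem _).1) hF (x := 0) (c := 1) fun n => by rw [q_one (A := Iic (n : ℤ)) (b := n) fun _ h => h]; rfl
    norm_num at this

end Pool.Agent.Results.MP_c15531_pr.Drift
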